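import Mathlib

/-!
Linear hashing for progression-free sets in `F_p`-vector spaces.
-/

namespace Pool.Agent.H523R2.AP

open Finset

/-- `A` contains no nontrivial `k`-term arithmetic progression. -/
def APFree {V : Type*} [AddCommGroup V] (k : ℕ) (A : Finset V) : Prop :=
  ∀ x y : V, y ≠ 0 → ¬ ∀ j < k, x + j • y ∈ A

variable {p : ℕ} [hp : Fact p.Prime]
variable {V : Type*} [AddCommGroup V] [Module (ZMod p) V] [Fintype V] [DecidableEq V]

noncomputable instance instFintypeDual : Fintype (Module.Dual (ZMod p) V) := by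
  classical
  exact Fintype.ofInjective (fun l : Module.Dual (ZMod p) V => (fun x => l x : V → ZMod p))
    (fun a b h => LinearMap.ext fun x => congrFun h x)

lemma card_vanish (d : V) (hd : d ≠ 0) :
    p * (univ.filter (fun l : Module.Dual (ZMod p) V => l d = 0)).card
      = Fintype.card (Module.Dual (ZMod p) V) := by
  obtain ⟨l0, h0⟩ : ∃ l0 : Module.Dual (ZMod p) V, l0 d ≠ 0 := by
    by_contra h
    push Not at h
    exact hd ((Module.forall_dual_apply_eq_zero_iff (ZMod p) d).1 h)
  have key : ∀ c : ZMod p, (univ.filter (fun l : Module.Dual (ZMod p) V => l d = c)).card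
      = (univ.filter (fun l : Module.Dual (ZMod p) V => l d = 0)).card := by
    intro c
    refine card_nbij' (fun l => l - (c * (l0 d)⁻¹) • l0) (fun l => l + (c * (l0 d)⁻¹) • l0)
      ?_ ?_ ?_ ?_
    · intro l hl
      simp only [coe_filter, mem_univ, true_and, Set.mem_ofPred_eq] at hl ⊢
      simp only [LinearMap.sub_apply, LinearMap.smul_apply, smul_eq_mul]
      rw [hl, mul_assoc, inv_mul_cancel₀ h0, mul_one, sub_self]
    · intro l hl
      simp only [coe_filter, mem_univ, true_and, Set.mem_ofPred_eq] at hl ⊢
      simp only [LinearMap.add_apply, LinearMap.smul_apply, smul_eq_mul]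
      rw [hl, mul_assoc, inv_mul_cancel₀ h0, mul_one, zero_add]
    · intro l _; simp
    · intro l _; simp
  have h := card_eq_sum_card_fiberwise (s := (univ : Finset (Module.Dual (ZMod p) V)))
    (t := (univ : Finset (ZMod p))) (f := fun l => l d) (fun _ _ => mem_coe.2 (mem_univ _))
  rw [sum_congr rfl (fun c _ => key c), sum_const, card_univ, card_univ, ZMod.card,
    smul_eq_mul] at h
  exact h.symm

/-- the map given by a tuple of functionals -/
def phi {m : ℕ} (L : Fin m → Module.Dual (ZMod p) V) (x : V) : Fin m → ZMod p := fun i => L i x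

lemma phi_add_smul {m : ℕ} (L : Fin m → Module.Dual (ZMod p) V) (x y : V) (j : ℕ) :
    phi L (x + j • y) = phi L x + j • phi L y := by
  funext i; simp [phi]

lemma card_kernel (m : ℕ) (y : V) (hy : y ≠ 0) :
    p ^ m * (univ.filter (fun L : Fin m → Module.Dual (ZMod p) V => phi L y = 0)).card
      = Fintype.card (Fin m → Module.Dual (ZMod p) V) := by
  have h : (univ.filter (fun L : Fin m → Module.Dual (ZMod p) V => phi L y = 0))
      = Fintype.piFinset (fun _ : Fin m =>
        univ.filter (fun l : Module.Dual (ZMod p) V => l y = 0)) := by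
    ext L
    simp only [mem_filter, mem_univ, true_and, Fintype.mem_piFinset]
    constructor
    · intro h i; exact congrFun h i
    · intro h; funext i; exact h i
  rw [h, Fintype.card_piFinset, prod_const, card_univ, Fintype.card_fin, ← mul_pow,
    card_vanish _ hy, Fintype.card_fun, Fintype.card_fin]

/-- all pairs `(x,y)`, `y ≠ 0`, whose `k`-progression lies in `S` -/
def aps (k : ℕ) (S : Finset V) : Finset (V × V) :=
  univ.filter (fun q : V × V => q.2 ≠ 0 ∧ ∀ j < k, q.1 + j • q.2 ∈ S)

lemma card_shift {m : ℕ} (B : Finset (Fin m → ZMod p)) (u : Fin m → ZMod p) :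
    (univ.filter (fun s : Fin m → ZMod p => u + s ∈ B)).card = B.card := by
  refine card_nbij' (fun s => u + s) (fun b => b - u) ?_ ?_ ?_ ?_
  · intro s hs
    simpa using hs
  · intro b hb
    simpa using hb
  · intro s _; simp
  · intro b _; simp

theorem hash (k m : ℕ) (hk : 1 ≤ k) (S : Finset V) (B : Finset (Fin m → ZMod p))
    (hB : APFree k B) :
    ∃ A : Finset V, APFree k A ∧
      B.card * (p ^ m * S.card) ≤ A.card * p ^ (2 * m) + B.card * (aps k S).card := by
  classical
  set Λ := (Fin m → Module.Dual (ZMod p) V) with hΛ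
  let S' : Λ × (Fin m → ZMod p) → Finset V := fun q => S.filter (fun w => phi q.1 w + q.2 ∈ B)
  let bad : Λ × (Fin m → ZMod p) → Finset (V × V) := fun q => aps k (S' q)
  let A : Λ × (Fin m → ZMod p) → Finset V := fun q => S' q \ (bad q).image Prod.fst
  have hAfree : ∀ q, APFree k (A q) := by
    intro q x y hy h
    have h1 : ∀ j < k, x + j • y ∈ S' q := fun j hj => (mem_sdiff.1 (h j hj)).1
    have h2 : (x, y) ∈ bad q := mem_filter.2 ⟨mem_univ _, hy, h1⟩
    have h3 := h 0 (by omega)
    rw [zero_smul, add_zero] at h3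
    exact (mem_sdiff.1 h3).2 (mem_image.2 ⟨(x, y), h2, rfl⟩)
  have hcard : ∀ q, (S' q).card ≤ (A q).card + (bad q).card := by
    intro q
    have h1 : (S' q).card ≤ (A q).card + ((bad q).image Prod.fst).card := by
      have := card_le_card (show S' q ⊆ A q ∪ (bad q).image Prod.fst by
        intro w hw
        by_cases h : w ∈ (bad q).image Prod.fst
        · exact mem_union_right _ h
        · exact mem_union_left _ (mem_sdiff.2 ⟨hw, h⟩))
      exact this.trans (card_union_le _ _)
    exact h1.trans (Nat.add_le_add_left card_image_le _)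
  by_contra hcon
  push Not at hcon
  have hlt : ∀ q, (A q).card * p ^ (2 * m) + B.card * (aps k S).card
      < B.card * (p ^ m * S.card) := fun q => hcon (A q) (hAfree q)
  -- sums
  have sumS : ∑ q, (S' q).card = S.card * (Fintype.card Λ * B.card) := by
    have : ∀ q, (S' q).card = ∑ w ∈ S, if phi q.1 w + q.2 ∈ B then 1 else 0 := by
      intro q; rw [card_filter]
    rw [sum_congr rfl (fun q _ => this q), sum_comm, ← smul_eq_mul, ← sum_const]
    apply sum_congr rfl
    intro w _
    rw [Fintype.sum_prod_type]
    have h2 : ∀ L : Λ, ∑ s : Fin m → ZMod p, (if phi L w + s ∈ B then 1 else 0) = B.card := by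
      intro L
      rw [← card_filter, card_shift]
    rw [sum_congr rfl (fun L _ => h2 L), sum_const, card_univ, smul_eq_mul]
  have sumBad : p ^ m * ∑ q, (bad q).card ≤ (aps k S).card * (Fintype.card Λ * B.card) := by
    have h1 : ∀ q, (bad q).card ≤ ∑ e ∈ aps k S,
        if (phi q.1 e.2 = 0 ∧ phi q.1 e.1 + q.2 ∈ B) then 1 else 0 := by
      intro q
      rw [← card_filter]
      apply card_le_card
      intro e he
      obtain ⟨_, hne, hS⟩ := mem_filter.1 he
      have hBm : ∀ j < k, phi q.1 e.1 + q.2 + j • phi q.1 e.2 ∈ B := by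
        intro j hj
        have := (mem_filter.1 (hS j hj)).2
        rw [phi_add_smul] at this
        rwa [add_right_comm] at this
      refine mem_filter.2 ⟨mem_filter.2 ⟨mem_univ _, hne, fun j hj =>
        (mem_filter.1 (hS j hj)).1⟩, ?_, ?_⟩
      · by_contra h
        exact hB _ _ h hBm
      · have := hBm 0 (by omega)
        rwa [zero_smul, add_zero] at this
    calc p ^ m * ∑ q, (bad q).card
        ≤ p ^ m * ∑ q : Λ × (Fin m → ZMod p), ∑ e ∈ aps k S,
          (if (phi q.1 e.2 = 0 ∧ phi q.1 e.1 + q.2 ∈ B) then 1 else 0) :=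
          Nat.mul_le_mul_left _ (sum_le_sum fun q _ => h1 q)
      _ = ∑ e ∈ aps k S, p ^ m * ∑ q : Λ × (Fin m → ZMod p),
          (if (phi q.1 e.2 = 0 ∧ phi q.1 e.1 + q.2 ∈ B) then 1 else 0) := by
          rw [sum_comm, mul_sum]
      _ = ∑ e ∈ aps k S, Fintype.card Λ * B.card := by
          apply sum_congr rfl
          intro e he
          have hne : e.2 ≠ 0 := (mem_filter.1 he).2.1
          rw [Fintype.sum_prod_type]
          have h2 : ∀ L : Λ, ∑ s : Fin m → ZMod p,
              (if (phi L e.2 = 0 ∧ phi L e.1 + s ∈ B) then 1 else 0)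
              = if phi L e.2 = 0 then B.card else 0 := by
            intro L
            by_cases h : phi L e.2 = 0
            · simp only [h, true_and, if_true]
              rw [← card_filter, card_shift]
            · simp [h]
          rw [sum_congr rfl (fun L _ => h2 L), ← sum_filter, sum_const, smul_eq_mul,
            ← mul_assoc, card_kernel m e.2 hne]
      _ = _ := by rw [sum_const, smul_eq_mul]
  have hne : (univ : Finset (Λ × (Fin m → ZMod p))).Nonempty := univ_nonempty
  have sumlt : ∑ q : Λ × (Fin m → ZMod p), ((A q).card * p ^ (2 * m) + B.card * (aps k S).card)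
      < ∑ q : Λ × (Fin m → ZMod p), B.card * (p ^ m * S.card) :=
    sum_lt_sum_of_nonempty hne fun q _ => hlt q
  rw [sum_add_distrib, sum_const, sum_const, card_univ, Fintype.card_prod, smul_eq_mul,
    smul_eq_mul, ← sum_mul, Fintype.card_fun (α := Fin m) (β := ZMod p), Fintype.card_fin,
    ZMod.card] at sumlt
  have hsum2 : ∑ q, (S' q).card ≤ ∑ q, (A q).card + ∑ q, (bad q).card := by
    rw [← sum_add_distrib]
    exact sum_le_sum fun q _ => hcard q
  rw [sumS] at hsum2
  have e2 : p ^ (2 * m) = p ^ m * p ^ m := by rw [two_mul, pow_add]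
  rw [e2] at sumlt
  have h5 := Nat.mul_le_mul_left (p ^ m * p ^ m) hsum2
  have h6 := Nat.mul_le_mul_left (p ^ m) sumBad
  set a := ∑ q, (A q).card
  set b := ∑ q, (bad q).card
  set P := p ^ m
  set c := Fintype.card Λ
  set T := (aps k S).card
  have h7 : P * P * (S.card * (c * B.card)) ≤ P * P * a + P * (T * (c * B.card)) := by
    calc _ ≤ P * P * (a + b) := h5
      _ = P * P * a + P * (P * b) := by ring
      _ ≤ _ := Nat.add_le_add_left h6 _
  have h8 : a * (P * P) + c * P * (B.card * T) < c * P * (B.card * (P * S.card)) := sumlt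
  have h9 : P * P * (S.card * (c * B.card)) = c * P * (B.card * (P * S.card)) := by ring
  have h10 : P * P * a + P * (T * (c * B.card)) = a * (P * P) + c * P * (B.card * T) := by ring
  rw [h9, h10] at h7
  exact absurd h8 (not_lt.2 h7)

end Pool.Agent.H523R2.AP
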