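import Pool.Agent.H523R2.AP.Words

/-!
A norm-form hypersurface is a progression-free set of size `p^{k-1}` in `F_p^k`.
-/

namespace Pool.Agent.H523R2.AP

open Finset Polynomial

variable {p : ℕ} [hp : Fact p.Prime]

theorem norm_set {k : ℕ} (hk : 3 ≤ k) (hkp : k ≤ p) :
    HasAP k (Fin k → ZMod p) (p ^ (k - 1)) := by
  classical
  set K := GaloisField p (k - 1) with hK
  have hfin : Module.finrank (ZMod p) K = k - 1 := GaloisField.finrank p (by omega)
  have : Fintype K := Fintype.ofFinite K
  have hcardK : Fintype.card K = p ^ (k - 1) := by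
    rw [← Nat.card_eq_fintype_card]
    exact GaloisField.card p (k - 1) (by omega)
  have hfr : Module.finrank (ZMod p) (K × ZMod p) = Module.finrank (ZMod p) (Fin k → ZMod p) := by
    rw [Module.finrank_prod, hfin, Module.finrank_self, Module.finrank_fin_fun]
    omega
  let e : (K × ZMod p) ≃ₗ[ZMod p] (Fin k → ZMod p) := LinearEquiv.ofFinrankEq _ _ hfr
  refine HasAP.equiv (e.toAddEquiv) ⟨univ.image (fun x : K => (x, Algebra.norm (ZMod p) x)), ?_, ?_⟩
  · rintro ⟨x, b⟩ ⟨y, c⟩ hy h
    have hN : ∀ j < k, Algebra.norm (ZMod p) (x + (j : K) * y) = b + (j : ZMod p) * c := by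
      intro j hj
      obtain ⟨z, _, hz⟩ := mem_image.1 (h j hj)
      simp only [Prod.smul_mk, Prod.mk_add_mk, Prod.mk.injEq, nsmul_eq_mul] at hz
      rw [← hz.2, ← hz.1]
    by_cases hy0 : y = 0
    · subst hy0
      have h0 := hN 0 (by omega)
      have h1 := hN 1 (by omega)
      simp only [mul_zero, add_zero, Nat.cast_zero, zero_mul, Nat.cast_one, one_mul] at h0 h1
      apply hy
      have : c = 0 := by
        rw [h0] at h1
        simpa using h1
      rw [this]; rfl
    · set f : Module.End (ZMod p) K := Algebra.lmul (ZMod p) K (-(x / y)) with hf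
      set g : (ZMod p)[X] := C (Algebra.norm (ZMod p) y) * f.charpoly - (C b + C c * X) with hg
      have hNy : Algebra.norm (ZMod p) y ≠ 0 := Algebra.norm_ne_zero_iff.2 hy0
      have heval : ∀ j < k, g.eval ((j : ZMod p)) = 0 := by
        intro j hj
        rw [hg, eval_sub, eval_mul, eval_C, eval_add, eval_mul, eval_C, eval_C, eval_X,
          LinearMap.eval_charpoly]
        have h1 : (algebraMap (ZMod p) (Module.End (ZMod p) K) (j : ZMod p) - f)
            = Algebra.lmul (ZMod p) K ((j : K) + x / y) := by
          rw [hf, map_neg, sub_neg_eq_add, map_add]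
          congr 1
          ext z
          simp [Algebra.smul_def]
        rw [h1, ← Algebra.norm_apply, ← map_mul]
        have h2 : y * ((j : K) + x / y) = x + (j : K) * y := by
          have h3 : y * (x / y) = x := by rw [← mul_div_assoc, mul_div_cancel_left₀ x hy0]
          rw [mul_add, h3]; ring
        rw [h2, hN j hj]
        ring
      have hdeg1 : (C b + C c * X : (ZMod p)[X]).natDegree ≤ 1 := by
        refine (natDegree_add_le _ _).trans (max_le ?_ ?_)
        · simp
        · exact (natDegree_C_mul_le _ _).trans natDegree_X_le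
      have hdeg2 : (C (Algebra.norm (ZMod p) y) * f.charpoly).natDegree = k - 1 := by
        rw [natDegree_C_mul hNy, LinearMap.charpoly_natDegree, hfin]
      have hdeg : g.natDegree = k - 1 := by
        rw [hg, natDegree_sub_eq_left_of_natDegree_lt, hdeg2]
        rw [hdeg2]; omega
      have hg0 : g = 0 := by
        apply eq_zero_of_natDegree_lt_card_of_eval_eq_zero g
          (f := fun j : Fin k => ((j : ℕ) : ZMod p))
        · intro i j hij
          simp only at hij
          rw [ZMod.natCast_eq_natCast_iff'] at hij
          rw [Nat.mod_eq_of_lt (by omega), Nat.mod_eq_of_lt (by omega)] at hij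
          exact Fin.ext hij
        · intro j; exact heval j j.2
        · rw [hdeg, Fintype.card_fin]; omega
      rw [hg0] at hdeg
      simp at hdeg
      omega
  · rw [card_image_of_injective _ (fun a b h => (Prod.mk.inj h).1), card_univ, hcardK]

end Pool.Agent.H523R2.AP
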