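import Pool.Agent.H523R2.AP.Hash

/-!
Words with one exceptional letter, and the strict improvement of products.
-/

namespace Pool.Agent.H523R2.AP

open Finset

variable {p : ℕ} [hp : Fact p.Prime]

/-- existence of a progression-free set of a given size -/
def HasAP (k : ℕ) (V : Type*) [AddCommGroup V] (t : ℕ) : Prop :=
  ∃ A : Finset V, APFree k A ∧ A.card = t

lemma HasAP.equiv {k : ℕ} {V W : Type*} [AddCommGroup V] [AddCommGroup W] {t : ℕ} (e : V ≃+ W)
    (h : HasAP k V t) : HasAP k W t := by
  classical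
  obtain ⟨A, hA, ht⟩ := h
  refine ⟨A.map e.toEquiv.toEmbedding, ?_, by rw [card_map, ht]⟩
  intro x y hy h
  apply hA (e.symm x) (e.symm y) (by simpa using hy)
  intro j hj
  obtain ⟨a, ha, h1⟩ := mem_map.1 (h j hj)
  have : a = e.symm (x + j • y) := by
    rw [← h1]; simp
  rw [this] at ha
  simpa using ha

lemma HasAP.pow {k : ℕ} {V : Type*} [AddCommGroup V] {t : ℕ} (h : HasAP k V t) (N : ℕ) :
    HasAP k (Fin N → V) (t ^ N) := by
  classical
  obtain ⟨A, hA, rfl⟩ := h
  refine ⟨Fintype.piFinset (fun _ => A), ?_, ?_⟩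
  · intro x y hy h
    obtain ⟨i, hi⟩ := Function.ne_iff.1 hy
    refine hA (x i) (y i) hi fun j hj => ?_
    have := h j hj
    rw [Fintype.mem_piFinset] at this
    exact this i
  · rw [Fintype.card_piFinset, prod_const, card_univ, Fintype.card_fin]

/-- the additive equivalence between `(F_p^n)^N` and `F_p^{Nn}` -/
noncomputable def powEquiv (N n : ℕ) : (Fin N → (Fin n → ZMod p)) ≃+ (Fin (N * n) → ZMod p) :=
  { toFun := fun f i => f (finProdFinEquiv.symm i).1 (finProdFinEquiv.symm i).2
    invFun := fun g i j => g (finProdFinEquiv (i, j))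
    left_inv := fun f => by funext i j; simp
    right_inv := fun g => by
      funext i
      exact congrArg g (finProdFinEquiv.apply_symm_apply i)
    map_add' := fun f g => rfl }

/-- words with exactly one letter `v`, the other ones in `A` -/
def words {V : Type*} [DecidableEq V] (N : ℕ) (A : Finset V) (v : V) : Finset (Fin N → V) :=
  (univ : Finset (Fin N)).biUnion fun i => Fintype.piFinset (fun j => if j = i then {v} else A)

lemma mem_words {V : Type*} [DecidableEq V] {N : ℕ} {A : Finset V} {v : V} {w : Fin N → V} :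
    w ∈ words N A v ↔ ∃ i, w i = v ∧ ∀ j, j ≠ i → w j ∈ A := by
  simp only [words, mem_biUnion, mem_univ, true_and, Fintype.mem_piFinset]
  constructor
  · rintro ⟨i, h⟩
    refine ⟨i, by simpa using h i, fun j hj => by simpa [hj] using h j⟩
  · rintro ⟨i, h1, h2⟩
    refine ⟨i, fun j => ?_⟩
    by_cases hj : j = i
    · subst hj; simpa using h1
    · simpa [hj] using h2 j hj

lemma card_words {V : Type*} [DecidableEq V] (N : ℕ) (A : Finset V) (v : V) (hv : v ∉ A) :
    (words N A v).card = N * A.card ^ (N - 1) := by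
  rw [words, card_biUnion]
  · have : ∀ i : Fin N, (Fintype.piFinset (fun j => if j = i then ({v} : Finset V) else A)).card
        = A.card ^ (N - 1) := by
      intro i
      rw [Fintype.card_piFinset]
      have h1 : ∀ j : Fin N, (if j = i then ({v} : Finset V) else A).card
          = if j = i then 1 else A.card := by
        intro j; split_ifs <;> simp
      rw [prod_congr rfl (fun j _ => h1 j), prod_ite, prod_const_one, one_mul, prod_const]
      congr 1
      have := card_filter_add_card_filter_not (s := (univ : Finset (Fin N))) (fun j => j = i)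
      rw [filter_eq' univ i, if_pos (mem_univ _), card_singleton, card_univ,
        Fintype.card_fin] at this
      omega
    rw [sum_congr rfl (fun i _ => this i), sum_const, card_univ, Fintype.card_fin, smul_eq_mul]
  · intro i _ i' _ hii
    rw [Function.onFun, disjoint_left]
    intro w hw hw'
    rw [Fintype.mem_piFinset] at hw hw'
    have h1 : w i = v := by simpa using hw i
    have h2 : w i ∈ A := by simpa [hii] using hw' i
    rw [h1] at h2
    exact hv h2

lemma aps_words_card {V : Type*} [AddCommGroup V] [Fintype V] [DecidableEq V] (k N : ℕ)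
    (A : Finset V) (v : V) (hA : APFree k A) (hk : 1 ≤ k) (hA1 : 1 ≤ A.card) :
    (aps k (words N A v)).card ≤ N ^ k * (Fintype.card V ^ (2 * k) * A.card ^ N) := by
  classical
  let F : (Fin k → Fin N) → Finset ((Fin N → V) × (Fin N → V)) := fun pos =>
    (Fintype.piFinset (fun i : Fin N =>
      if i ∈ (univ : Finset (Fin k)).image pos then (univ : Finset (V × V)) else A ×ˢ {0})).image
      (fun f => (fun i => (f i).1, fun i => (f i).2))
  have hsub : aps k (words N A v) ⊆ (univ : Finset (Fin k → Fin N)).biUnion F := by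
    intro e he
    obtain ⟨_, _, h⟩ := mem_filter.1 he
    have h1 : ∀ j : Fin k, ∃ i, (e.1 + (j : ℕ) • e.2) i = v ∧
        ∀ l, l ≠ i → (e.1 + (j : ℕ) • e.2) l ∈ A := fun j => mem_words.1 (h j j.2)
    choose pos hpos using h1
    rw [mem_biUnion]
    refine ⟨pos, mem_univ _, ?_⟩
    refine mem_image.2 ⟨fun i => (e.1 i, e.2 i), ?_, rfl⟩
    rw [Fintype.mem_piFinset]
    intro i
    split_ifs with hi
    · exact mem_univ _
    · have hmem : ∀ j < k, e.1 i + j • e.2 i ∈ A := by
        intro j hj
        have := (hpos ⟨j, hj⟩).2 i (by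
          intro h'
          exact hi (mem_image.2 ⟨⟨j, hj⟩, mem_univ _, h'.symm⟩))
        simpa using this
      have hy : e.2 i = 0 := by
        by_contra hne
        exact hA _ _ hne hmem
      have h0 := hmem 0 (by omega)
      rw [zero_smul, add_zero] at h0
      exact mem_product.2 ⟨h0, mem_singleton.2 hy⟩
  have hF : ∀ pos, (F pos).card ≤ Fintype.card V ^ (2 * k) * A.card ^ N := by
    intro pos
    refine card_image_le.trans ?_
    rw [Fintype.card_piFinset]
    set D := (univ : Finset (Fin k)).image pos with hD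
    have hDk : D.card ≤ k := by
      have := card_image_le (s := (univ : Finset (Fin k))) (f := pos)
      rwa [card_univ, Fintype.card_fin] at this
    have h1 : ∀ i : Fin N, (if i ∈ D then (univ : Finset (V × V)) else A ×ˢ {0}).card
        = if i ∈ D then Fintype.card V ^ 2 else A.card := by
      intro i; split_ifs
      · rw [card_univ, Fintype.card_prod, sq]
      · rw [card_product, card_singleton, mul_one]
    rw [prod_congr rfl (fun i _ => h1 i), prod_ite, prod_const, prod_const]
    apply Nat.mul_le_mul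
    · rw [← pow_mul]
      apply Nat.pow_le_pow_right Fintype.card_pos
      have : (univ.filter (fun i => i ∈ D)).card = D.card := by
        congr 1; ext i; simp
      rw [this]; omega
    · apply Nat.pow_le_pow_right hA1
      have := card_filter_le (univ : Finset (Fin N)) (fun i => i ∉ D)
      rwa [card_univ, Fintype.card_fin] at this
  calc (aps k (words N A v)).card ≤ ((univ : Finset (Fin k → Fin N)).biUnion F).card :=
        card_le_card hsub
    _ ≤ ∑ pos, (F pos).card := card_biUnion_le
    _ ≤ ∑ _pos : Fin k → Fin N, Fintype.card V ^ (2 * k) * A.card ^ N :=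
        sum_le_sum fun pos _ => hF pos
    _ = _ := by
        rw [sum_const, card_univ, Fintype.card_fun, Fintype.card_fin, Fintype.card_fin,
          smul_eq_mul]

/-- If `R^{k-1} > P^{k-2}` then some power of the set can be strictly improved. -/
theorem improve {k n : ℕ} (hk : 2 ≤ k) (A : Finset (Fin n → ZMod p)) (hA : APFree k A)
    (v : Fin n → ZMod p) (hv : v ∉ A) (hA1 : 1 ≤ A.card)
    (hR : (p ^ n) ^ (k - 2) < A.card ^ (k - 1)) :
    ∃ N t : ℕ, 1 ≤ N ∧ HasAP k (Fin (N * n) → ZMod p) t ∧ A.card ^ N < t := by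
  classical
  set R := A.card with hRd
  set P := p ^ n with hP
  have hPpos : 1 ≤ P := Nat.one_le_pow _ _ hp.out.pos
  have hcardV : Fintype.card (Fin n → ZMod p) = P := by
    rw [Fintype.card_fun, Fintype.card_fin, ZMod.card]
  have hRP : R < P := by
    rw [← hcardV]
    exact card_lt_univ_of_notMem hv
  have hP2 : 2 ≤ P := by omega
  by_contra hcon
  push Not at hcon
  -- apply with N = P^u
  have key : ∀ u : ℕ, (R ^ (k - 1)) ^ u ≤ 2 * R * P ^ (2 * k + 2) * (P ^ (k - 2)) ^ u := by
    intro u
    set N := P ^ u with hN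
    have hN1 : 1 ≤ N := Nat.one_le_pow _ _ hPpos
    set c := 2 * k + 2 with hc
    set j := (k - 1) * u + c with hj
    -- B = A^j
    obtain ⟨B, hB, hBcard⟩ := (HasAP.pow ⟨A, hA, rfl⟩ j : HasAP k (Fin j → (Fin n → ZMod p)) _).equiv
      (powEquiv j n)
    obtain ⟨A', hA', hcard⟩ := hash (p := p) k (j * n) (by omega) (words N A v) B hB
    have hT := aps_words_card k N A v hA (by omega) hA1
    rw [hcardV] at hT
    have hS := card_words N A v hv
    rw [← hRd] at hS hT hBcard
    have e1 : p ^ (j * n) = P ^ j := by rw [hP, ← pow_mul, mul_comm]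
    have e2 : p ^ (2 * (j * n)) = P ^ j * P ^ j := by
      rw [hP, ← pow_mul, ← pow_add]; congr 1; ring
    rw [e1, e2, hBcard, hS] at hcard
    have hA'le : A'.card ≤ R ^ N := by
      have := hcon N A'.card hN1 (HasAP.equiv (powEquiv N n) ⟨A', hA', rfl⟩)
      exact this
    -- 2 * T ≤ P^j * |S|
    have hTS : 2 * (N ^ k * (P ^ (2 * k) * R ^ N)) ≤ P ^ j * (N * R ^ (N - 1)) := by
      have h1 : R ^ N = R * R ^ (N - 1) := by
        rw [← pow_succ']; congr 1; omega
      have h2 : N ^ k = N * N ^ (k - 1) := by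
        rw [← pow_succ']; congr 1; omega
      have h3 : P ^ j = N ^ (k - 1) * (P ^ (2 * k) * P ^ 2) := by
        rw [hj, hN, hc, ← pow_mul P u (k - 1), ← pow_add P, ← pow_add P]
        congr 1; ring
      rw [h1, h2, h3]
      have h4 : 2 * R ≤ P ^ 2 := by nlinarith
      calc 2 * (N * N ^ (k - 1) * (P ^ (2 * k) * (R * R ^ (N - 1))))
          = (2 * R) * (N * N ^ (k - 1) * (P ^ (2 * k) * R ^ (N - 1))) := by ring
        _ ≤ P ^ 2 * (N * N ^ (k - 1) * (P ^ (2 * k) * R ^ (N - 1))) :=
            Nat.mul_le_mul_right _ h4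
        _ = _ := by ring
    have h5 : R ^ j * (P ^ j * (N * R ^ (N - 1))) ≤ 2 * (A'.card * (P ^ j * P ^ j)) := by
      have h6 : R ^ j * (aps k (words N A v)).card ≤ R ^ j * (N ^ k * (P ^ (2 * k) * R ^ N)) :=
        Nat.mul_le_mul_left _ hT
      have h7 : R ^ j * (2 * (N ^ k * (P ^ (2 * k) * R ^ N)))
          ≤ R ^ j * (P ^ j * (N * R ^ (N - 1))) := Nat.mul_le_mul_left _ hTS
      nlinarith
    have h8 : R ^ j * (N * R ^ (N - 1)) ≤ 2 * (A'.card * P ^ j) := by
      have hPj : 0 < P ^ j := by positivity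
      apply Nat.le_of_mul_le_mul_left _ hPj
      calc P ^ j * (R ^ j * (N * R ^ (N - 1))) = R ^ j * (P ^ j * (N * R ^ (N - 1))) := by ring
        _ ≤ 2 * (A'.card * (P ^ j * P ^ j)) := h5
        _ = _ := by ring
    have h9 : R ^ j * (N * R ^ (N - 1)) ≤ 2 * (R ^ N * P ^ j) :=
      h8.trans (Nat.mul_le_mul_left _ (Nat.mul_le_mul_right _ hA'le))
    have h10 : R ^ j * N ≤ 2 * R * P ^ j := by
      have hRp : 0 < R ^ (N - 1) := by positivity
      apply Nat.le_of_mul_le_mul_right _ hRp
      calc R ^ j * N * R ^ (N - 1) = R ^ j * (N * R ^ (N - 1)) := by ring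
        _ ≤ 2 * (R ^ N * P ^ j) := h9
        _ = 2 * R * P ^ j * R ^ (N - 1) := by
          have h1 : R ^ N = R * R ^ (N - 1) := by
            rw [← pow_succ']; congr 1; omega
          rw [h1]; ring
    -- conclude
    have h11 : (R ^ (k - 1)) ^ u * P ^ u ≤ R ^ j * N := by
      rw [← hN]
      apply Nat.mul_le_mul_right
      rw [← pow_mul, hj]
      exact Nat.pow_le_pow_right hA1 (by omega)
    have h12 : P ^ j = (P ^ (k - 2)) ^ u * P ^ c * P ^ u := by
      rw [hj, ← pow_mul P (k - 2) u, ← pow_add P, ← pow_add P]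
      congr 1
      have : k - 1 = (k - 2) + 1 := by omega
      rw [this]; ring
    have hPu : 0 < P ^ u := by positivity
    apply Nat.le_of_mul_le_mul_right _ hPu
    calc (R ^ (k - 1)) ^ u * P ^ u ≤ R ^ j * N := h11
      _ ≤ 2 * R * P ^ j := h10
      _ = 2 * R * P ^ c * (P ^ (k - 2)) ^ u * P ^ u := by rw [h12]; ring
  -- growth contradiction
  set a := R ^ (k - 1) with ha
  set b := P ^ (k - 2) with hb
  set C := 2 * R * P ^ (2 * k + 2) with hC
  have hb1 : 1 ≤ b := Nat.one_le_pow _ _ hPpos
  have hab : b + 1 ≤ a := hR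
  -- (1+1/b)^u ≥ 1 + u/b
  have hbern : ∀ u : ℕ, (u : ℝ) ≤ b * C := by
    intro u
    have h1 : ((b : ℝ) + 1) ^ u ≤ C * (b : ℝ) ^ u := by
      have h2 : (b + 1) ^ u ≤ C * b ^ u := (Nat.pow_le_pow_left hab u).trans (key u)
      exact_mod_cast h2
    have hbpos : (0 : ℝ) < b := by exact_mod_cast hb1
    have h3 : (1 + 1 / (b : ℝ)) ^ u ≤ C := by
      have : (1 + 1 / (b : ℝ)) ^ u = ((b : ℝ) + 1) ^ u / (b : ℝ) ^ u := by
        rw [← div_pow]; congr 1; field_simp
      rw [this, div_le_iff₀ (by positivity)]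
      exact h1
    have h4 : 1 + (u : ℝ) * (1 / (b : ℝ)) ≤ (1 + 1 / (b : ℝ)) ^ u :=
      one_add_mul_le_pow (by have : (0 : ℝ) ≤ 1 / b := by positivity
                             linarith) u
    have h5 : (u : ℝ) * (1 / b) ≤ C := by linarith
    have h6 : (u : ℝ) / b ≤ C := by rw [div_eq_mul_one_div]; exact h5
    rw [div_le_iff₀ hbpos] at h6
    linarith [mul_comm (C : ℝ) b]
  obtain ⟨u, hu⟩ := exists_nat_gt ((b : ℝ) * C)
  exact absurd (hbern u) (not_le.2 hu)

end Pool.Agent.H523R2.AP
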